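import Pool.Agent.MP_1246c0_nt.H12.SpecR

/-! The probability of the good event of first order. -/

namespace Pool.Agent.MP_1246c0_nt.H12

open Polynomial Finset Matrix

namespace RM0

theorem ind_pos {p : Prop} (h : p) : ind p = 1 := if_pos h

theorem ind_neg {p : Prop} (h : ¬p) : ind p = 0 := if_neg h

theorem ind_nn (p : Prop) : 0 ≤ ind p := by
  by_cases h : p
  · rw [ind_pos h]; exact zero_le_one
  · rw [ind_neg h]

theorem ind_mono {p q : Prop} (h : p → q) : ind p ≤ ind q := by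
  by_cases hp : p
  · rw [ind_pos hp, ind_pos (h hp)]
  · rw [ind_neg hp]; exact ind_nn q

theorem er_le {x κ : ℕ} (hx : 10 ≤ x) (hκ : κ ≤ x) : Er (κ + 1) x (x ^ 5 / 2) ≤ 1 / 2 ^ x := by
  rw [Er, div_le_div_iff₀ (by positivity) (by positivity), one_mul, ← pow_add]
  refine pow_le_pow_right₀ one_le_two ?_
  rw [Nat.div_div_eq_div_mul, Nat.le_div_iff_mul_le (by norm_num)]
  have h1 : 5 * (κ + 1 + 1) * (κ + 1 + x + 2) ≤ 5 * (2 * x) * (3 * x) :=
    Nat.mul_le_mul (by omega) (by omega)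
  have h2 : 10 ^ 3 ≤ x ^ 3 := Nat.pow_le_pow_left hx 3
  have h3 : x ^ 5 = x ^ 3 * (x * x) := by ring
  have h4 : 10 ^ 3 * (x * x) ≤ x ^ 3 * (x * x) := Nat.mul_le_mul_right _ h2
  nlinarith

variable {ι : Type} [Fintype ι] [DecidableEq ι]

theorem kr_le {ι' : Type} [Fintype ι'] [DecidableEq ι'] (S : Matrix ι ι F2) (e : ι → F2)
    (P : Finset ι) (f : ι' → ι) (hf : f.Injective) (h : ∀ l, l ∉ P ↔ l ∈ Set.range f) :
    Kr S e P ≤ Kr (S.submatrix f f) (fun l => e (f l)) ∅ := by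
  have sm : ∀ g y : ι → F2, (∀ l ∈ P, y l = 0) → ∑ l', g (f l') * y (f l') = ∑ l, g l * y l :=
    fun g y hy => Fintype.sum_of_injective f hf _ _ (fun l hl => by
      rw [hy l (by by_contra c; exact hl ((h l).1 c)), mul_zero]) fun _ => rfl
  refine Nat.card_le_card_of_injective (fun y => ⟨fun l => y.1 (f l), by simp,
    fun l _ => (sm (S (f l)) y.1 y.2.1).trans (y.2.2.1 (f l) ((h _).2 ⟨l, rfl⟩)),
    (sm e y.1 y.2.1).trans y.2.2.2⟩) fun y y' h' => Subtype.ext (funext fun l => ?_)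
  by_cases hl : l ∈ P
  · rw [y.2.1 l hl, y'.2.1 l hl]
  · obtain ⟨l', rfl⟩ := (h l).1 hl
    exact congrFun (congrArg Subtype.val h') l'

omit [DecidableEq ι] in
theorem kr_one {S : Matrix ι ι F2} {e : ι → F2}
    (h : ∀ y : ι → F2, S *ᵥ y = 0 → dot univ e y = 0 → y = 0) : Kr S e ∅ ≤ 1 :=
  Finite.card_le_one_iff_subsingleton.2 ⟨fun y y' => Subtype.ext
    ((h y.1 (funext fun l => y.2.2.1 l (by simp)) y.2.2.2).trans
      (h y'.1 (funext fun l => y'.2.2.1 l (by simp)) y'.2.2.2).symm)⟩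

theorem kr_bad {S : Matrix ι ι F2} {e : ι → F2} {P : Finset ι} {o : F2} (h : ¬Bad1 S e P o 1) :
    Kr S e ∅ ≤ 1 := by
  refine kr_one fun y h1 h2 => ?_
  by_contra hy
  have : Fact (Irreducible (X : F2[X])) := ⟨irreducible_X⟩
  have r0 : AdjoinRoot.root (X : F2[X]) = 0 := AdjoinRoot.mk_self
  have k : ∀ g : ι → F2, ∑ l, g l • (y l • (1 : AdjoinRoot (X : F2[X]))) = (∑ l, g l * y l) • 1 :=
    fun g => by simp only [smul_smul, Finset.sum_smul]
  refine h ⟨X, irreducible_X, natDegree_X.ge, fun l => y l • 1, fun h3 => hy (funext fun l => ?_),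
    fun l => ?_, ?_⟩
  · simpa using congrFun h3 l
  · have : ∑ l', S l l' * y l' = 0 := congrFun h1 l
    simp only [ap, xv, rv, r0, Bool.false_eq_true, and_false, if_false, k, this]
    simp
  · have : ∑ l', e l' * y l' = 0 := h2
    simp only [xv, Bool.false_eq_true, and_false, if_false, k, this, zero_smul]

theorem ok_mono {S : Matrix ι ι F2} {e : ι → F2} {B P J : Finset ι} {m z m' z' : ℕ}
    (h : Ok i2 i2 S e B P J false m z) (hm : m' ≤ m) (hz : z ≤ z') :
    Ok i2 i2 S e B P J false m' z' :=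
  ⟨h.sym, h.row, h.col, h.sub, h.typ, fun ε => hm.trans (h.cnt ε), hm.trans h.pen, h.sml.trans hz⟩

variable (lv : ι → ℕ) (e : ι → F2)

/-- the block of the indices of level at least `a` -/
abbrev rs (a : ℕ) (S : Matrix ι ι F2) : Matrix {l // a ≤ lv l} {l // a ≤ lv l} F2 :=
  S.submatrix Subtype.val Subtype.val

/-- the trace of a set of indices -/
abbrev tr (a : ℕ) (B : Finset ι) : Finset {l // a ≤ lv l} := univ.filter fun l => l.1 ∈ B

/-- the pencil indices -/
abbrev pc (a : ℕ) : Finset {l // a ≤ lv l} := univ.filter fun l => lv l.1 = a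

/-- the size of the kernel of a block -/
noncomputable abbrev KK (S : Matrix ι ι F2) (a : ℕ) : ℕ := Kr (rs lv a S) (fun l => e l.1) ∅

/-- the good event from level `a` on -/
def EE (A a : ℕ) (S : Matrix ι ι F2) : Prop :=
  KK lv e S (A + 1) ≤ 1 ∧ ∀ a', a ≤ a' → a' ≤ A → ¬BadL lv e S a' 1

theorem kr_step (S : Matrix ι ι F2) (a : ℕ) :
    Kr (rs lv a S) (fun l => e l.1) (pc lv a) ≤ KK lv e S (a + 1) :=
  kr_le (rs lv a S) (fun l => e l.1) (pc lv a)
    (fun l : {l // a + 1 ≤ lv l} => ⟨l.1, Nat.le_of_succ_le l.2⟩)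
    (fun _ _ h => Subtype.ext (Subtype.mk.inj h)) fun l => by
      have := l.2
      simp only [mem_filter, mem_univ, true_and]
      exact ⟨fun h => ⟨⟨l.1, by omega⟩, rfl⟩, by
        rintro ⟨⟨l', h⟩, rfl⟩
        show lv l' ≠ a
        omega⟩

variable {lv e} {B : Finset ι} {S : Matrix ι ι F2} {tp j0 A a : ℕ}

theorem EE.kk (h : EE lv e A (a + 1) S) (ha : a ≤ A) : KK lv e S (a + 1) ≤ 1 := by
  rcases ha.eq_or_lt with rfl | h'
  · exact h.1
  · exact kr_bad (h.2 _ le_rfl h')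

theorem EE.add {H : Matrix ι ι F2} (h : EE lv e A (a + 1) S) (ha : a ≤ A)
    (hH : H ∈ Hs i2 B (B.filter fun l => lv l = a)) : EE lv e A (a + 1) (S + H) := by
  have k : ∀ a', a + 1 ≤ a' → rs lv a' (S + H) = rs lv a' S := fun a' h' => by
    ext ⟨l, hl⟩ ⟨l', hl'⟩
    have : H l l' = 0 := hH.2.2 l l' fun c => by
      rcases c.2.2 with c | c <;> have := (mem_filter.1 c).2 <;> omega
    simp [this]
  refine ⟨by rw [KK, k _ (by omega)]; exact h.1, fun a' h1 h2 => ?_⟩
  have := h.2 a' h1 h2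
  unfold BadL at this ⊢
  rwa [← rs, k a' h1]

theorem xx_anti {a a' : ℕ} (h : a ≤ a') : xx tp j0 a' ≤ xx tp j0 a :=
  Nat.pow_le_pow_right two_pos (Nat.div_le_div_right (Nat.sub_le_sub_left h _))

theorem xx_pow : xx tp j0 a ^ 5 ≤ 2 ^ jj tp j0 a := by
  rw [xx, ← pow_mul]
  exact Nat.pow_le_pow_right two_pos (Nat.div_mul_le_self _ _)

theorem xx_ge {x : ℕ} (h : 5 * x ≤ j0) (ha : a ≤ tp) : x ≤ xx tp j0 a :=
  le_trans (by unfold jj; omega) Nat.lt_two_pow_self.le

theorem okL (ok : SOK) (hN : Nice lv e B S tp j0) (hS : Sym i2 i2 S e B) (hj : 55 ≤ j0)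
    (ha : a ≤ tp) {H : Matrix ι ι F2} (hH : H ∈ Hs i2 B B) {m z : ℕ} (hm : m ≤ 2 ^ jj tp j0 a)
    (hz : xx tp j0 a ≤ z) :
    Ok i2 i2 (rs lv a (S + H)) (fun l => e l.1) (tr lv a B) (pc lv a) (pc lv a ∩ tr lv a B) false
      m z ∧ (pc lv a ∩ tr lv a B).card ≤ xx tp j0 a ^ 11 := by
  have := ok F2 ι i2 i2 lv e B S (S + H) e tp j0 a a false hN hj ha (by simp)
    (fun l hl l' hl' => ?_) (fun _ _ => rfl) fun l _ l' hl' _ _ => ?_
  · refine ⟨ok_mono this.1 hm (le_trans ?_ hz), this.2⟩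
    split_ifs with h
    · exact xx_anti (by omega)
    · exact Nat.zero_le _
  · rw [← hS l (mem_filter.1 hl).1 l' (mem_filter.1 hl').1]
    have h1 : H l' l = H l l' := hH.1 l l'
    have h2 : H l l' + H l l' = 0 := CharTwo.add_self_eq_zero _
    simp only [Matrix.add_apply, RingHom.id_apply, h1]
    linear_combination h2
  · simp [hH.2.2 l l' fun c => hl' c.2.1, hH.2.2 l' l fun c => hl' c.1]

theorem res (av : SAVG) (F : Finset ι) (Φ : Matrix {l // a ≤ lv l} {l // a ≤ lv l} F2 → ℝ) :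
    Ex (Hs i2 B F) (fun H => Φ (rs lv a (S + H))) =
      Ex (Hs i2 (tr lv a B) (tr lv a F)) fun H => Φ (rs lv a S + H) :=
  av.res F2 ι _ i2 B F Subtype.val (fun H => Φ (rs lv a S + H)) Subtype.val_injective

theorem kerL (av : SAVG) (ld : SLD) (ok : SOK) (hN : Nice lv e B S tp j0) (hS : Sym i2 i2 S e B)
    (hj : 55 ≤ j0) (ha : a ≤ tp) {κ : ℕ} (hκ : κ ≤ xx tp j0 a) :
    Ex (Hs i2 B B) (fun H => ind (2 ^ κ < KK lv e (S + H) (a + 1))) ≤
      1 / 2 ^ (κ + 1) + 1 / 2 ^ xx tp j0 a := by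
  rcases ha.eq_or_lt with rfl | h
  · refine le_trans (av.mono _ _ _ _ fun H _ => (ind_neg (not_lt.2 ?_)).le)
      ((av.const _ _ 0).trans_le (by positivity))
    obtain ⟨q, -, -, q1, q2⟩ := hN.top
    refine le_trans (kr_one fun y _ h2 => funext fun l => ?_) Nat.one_le_two_pow
    rw [dot, sum_eq_single l (fun l' _ c => absurd (Subtype.ext ((q2 _ l'.2).trans (q2 _ l.2).symm)) c)
      (by simp), q2 _ l.2, q1, one_mul] at h2
    exact h2
  · have := (okL ok hN hS hj h (zero_mem _) (m := xx tp j0 a ^ 5 / 2) (Nat.div_le_of_le_mul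
      (xx_pow.trans (by rw [← pow_succ']; unfold jj; exact Nat.pow_le_pow_right two_pos (by omega))))
      (xx_anti (Nat.le_succ a))).1
    rw [add_zero] at this
    refine (res av B fun M => ind (2 ^ κ < Kr M (fun l => e l.1) ∅)).trans_le
      ((ld.ker _ _ _ _ _ _ _ _ κ this).trans ?_)
    have := er_le (xx_ge (x := 10) (by omega) ha) hκ
    linarith

end RM0

open RM0 in
theorem rowRM0 : OfRM0 := by
  intro av ld lvl ok
  obtain ⟨x1, low⟩ := lvl.low
  obtain ⟨x2, high⟩ := lvl.high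
  refine ⟨5, 55 + 5 * x1 + 5 * x2, fun ι _ _ lv e B S tp j0 A hN hS hj hA => ?_⟩
  have j55 : 55 ≤ j0 := by omega
  have hi : ∀ a ∈ Ioc A tp, Ex (Hs i2 B B) (fun H => ind (BadL lv e (S + H) a
      (2 ^ nn tp j0 a + 1))) ≤ 5 / 2 ^ 2 ^ nn tp j0 a := fun a ha => by
    obtain ⟨a1, a2⟩ := mem_Ioc.1 ha
    obtain ⟨o1, o2⟩ := okL ok hN hS j55 a2 (zero_mem _) xx_pow le_rfl
    rw [add_zero] at o1
    have f1 : 2 ^ nn tp j0 a ≤ xx tp j0 a := Nat.pow_le_pow_right two_pos (min_le_right _ _)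
    have := high _ _ _ _ _ _ _ _ (xx_ge (by omega) a2) o1 o2 Nat.one_le_two_pow f1
      ((res av B fun M => ind (2 ^ xx tp j0 a < Kr M (fun l => e l.1) (pc lv a))).symm.trans_le
        ((av.mono _ _ _ _ fun H _ => ind_mono fun h => h.trans_le (kr_step lv e _ a)).trans
          (kerL av ld ok hN hS j55 a2 le_rfl)))
    unfold BadL
    rw [if_neg (by omega)]
    refine (res av B fun M => ind (Bad1 M (fun l => e l.1) (pc lv a) 0 _)).trans_le
      (this.trans ?_)
    have b1 : (1 : ℝ) / 2 ^ xx tp j0 a ≤ 1 / 2 ^ 2 ^ nn tp j0 a :=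
      one_div_le_one_div_of_le (by positivity) (pow_le_pow_right₀ one_le_two f1)
    have b2 : (1 : ℝ) / 2 ^ (xx tp j0 a + 1) ≤ 1 / 2 ^ 2 ^ nn tp j0 a :=
      one_div_le_one_div_of_le (by positivity) (pow_le_pow_right₀ one_le_two (by omega))
    rw [div_eq_mul_one_div 3, div_eq_mul_one_div 5]
    linarith
  have lo : ∀ n a, a + n = A + 1 →
      49 / 100 * (1 / 500) ^ n ≤ Ex (Hs i2 B B) fun H => ind (EE lv e A a (S + H)) := fun n => by
    induction n with
    | zero =>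
      rintro a rfl
      have h1 := kerL av ld ok hN hS j55 hA.le (Nat.zero_le _)
      have h2 := av.mono _ (Hs i2 B B) (fun _ => 1) (fun H => ind (EE lv e A (A + 1) (S + H)) +
        ind (2 ^ 0 < KK lv e (S + H) (A + 1))) fun H _ => by
          by_cases c : 2 ^ 0 < KK lv e (S + H) (A + 1)
          · rw [ind_pos c]; linarith [ind_nn (EE lv e A (A + 1) (S + H))]
          · rw [ind_neg c, ind_pos ⟨not_lt.1 c, fun _ _ _ => by omega⟩, add_zero]
      rw [av.const, av.add] at h2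
      have h3 : (1 : ℝ) / 2 ^ xx tp j0 A ≤ 1 / 2 ^ 7 := one_div_le_one_div_of_le (by positivity)
        (pow_le_pow_right₀ one_le_two (xx_ge (by omega) hA.le))
      norm_num at h1 h2 h3 ⊢
      linarith
    | succ n ih =>
      intro a ha
      have a1 : a ≤ A := by omega
      have a2 : a ≤ tp := by omega
      rw [av.sub _ (Hs i2 B B) (Hs i2 B (B.filter fun l => lv l = a)) _ fun H hH => ⟨hH.1, hH.2.1,
        fun l l' c => hH.2.2 l l' fun c' => c ⟨c'.1, c'.2.1, Or.inl c'.1⟩⟩]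
      refine le_trans ?_ (av.mono _ _ (fun H => 1 / 500 * ind (EE lv e A (a + 1) (S + H))) _
        fun H hH => ?_)
      · rw [av.mul, pow_succ]
        linarith [ih (a + 1) (by omega)]
      by_cases c : EE lv e A (a + 1) (S + H)
      swap
      · rw [ind_neg c, mul_zero, ← av.const _ (Hs i2 B (B.filter fun l => lv l = a)) 0]
        exact av.mono _ _ _ _ fun _ _ => ind_nn _
      obtain ⟨o1, o2⟩ := okL ok hN hS j55 a2 hH xx_pow le_rfl
      have h1 := low _ _ _ _ _ (if a = 0 then 1 else 0) _ (xx_ge (by omega) a2) o1 (fun h => by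
        obtain rfl : a = 0 := by
          by_contra c
          rw [if_neg c] at h
          exact zero_ne_one h
        rw [card_bij (t := univ.filter fun l => lv l = 0) (fun l _ => l.1) (by simp)
          (fun _ _ _ _ => Subtype.ext) fun l hl => ⟨⟨l, Nat.zero_le _⟩, by simpa using hl, rfl⟩]
        exact hN.ev) o2 ((kr_step lv e _ a).trans (c.kk a1))
      rw [show pc lv a ∩ tr lv a B = tr lv a (B.filter fun l => lv l = a) by
        ext l; simp [and_comm], ← res av _ fun M => ind (Bad1 M (fun l => e l.1) (pc lv a) _ 1)] at h1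
      have h2 := av.mono _ (Hs i2 B (B.filter fun l => lv l = a)) (fun _ => 1)
        (fun H' => ind (EE lv e A a (S + (H + H'))) + ind (BadL lv e (S + H + H') a 1))
        fun H' hH' => by
          by_cases c' : BadL lv e (S + H + H') a 1
          · rw [ind_pos c']; linarith [ind_nn (EE lv e A a (S + (H + H')))]
          · have := c.add a1 hH'
            rw [ind_neg c', ← add_assoc, ind_pos ⟨this.1, fun a' b1 b2 =>
              b1.eq_or_lt.elim (· ▸ c') fun b => this.2 a' b b2⟩, add_zero]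
      rw [av.const, av.add] at h2
      rw [ind_pos c]
      unfold BadL at h2
      linarith
  have h1 := av.mono _ (Hs i2 B B) (fun H => ind (EE lv e A 0 (S + H)))
    (fun H => ind (G1 lv e (S + H) A tp j0) +
      ∑ a ∈ Ioc A tp, ind (BadL lv e (S + H) a (2 ^ nn tp j0 a + 1))) fun H _ => by
    by_cases c : ∀ a ∈ Ioc A tp, ¬BadL lv e (S + H) a (2 ^ nn tp j0 a + 1)
    · exact le_add_of_le_of_nonneg (ind_mono fun h => ⟨fun a => h.2 a (Nat.zero_le _), c⟩)
        (sum_nonneg fun _ _ => ind_nn _)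
    · push Not at c
      obtain ⟨a, b1, b2⟩ := c
      exact le_add_of_nonneg_of_le (ind_nn _) ((ind_mono fun _ => b2).trans
        (single_le_sum (f := fun a => ind (BadL lv e (S + H) a (2 ^ nn tp j0 a + 1)))
          (fun _ _ => ind_nn _) b1))
  rw [av.add, av.sum] at h1
  linarith [lo (A + 1) 0 (by omega), sum_le_sum hi]

end Pool.Agent.MP_1246c0_nt.H12
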