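import Pool.Agent.MP_1246c0_nt.H12.SpecA

/-! Reduction of the relations modulo a power of the eigenvalue. -/

namespace Pool.Agent.MP_1246c0_nt.H12

open Polynomial Finset

namespace V2

section
variable {O : Type} [CommRing O]

theorem om_succ (k : ℕ) (t : O) : om (k + 1) t = om k t * (om k t + 2) := by
  rw [om, om, pow_succ, pow_mul]; ring

theorem four_dvd {t : O} {a b : ℕ} (h : 2 ∣ om a t) (hb : a < b) : 2 * 2 ∣ om b t := by
  induction b, hb using Nat.le_induction with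
  | base => rw [om_succ]; exact mul_dvd_mul h (dvd_add h dvd_rfl)
  | succ b _ ih => rw [om_succ]; exact ih.mul_right _

variable [IsDomain O] [IsDiscreteValuationRing O]

theorem half {w : O} (h : ¬2 ∣ w) : ∃ u, ¬IsUnit u ∧ 2 = w * u ∧ IsUnit (1 + u) := by
  obtain ⟨u, hu⟩ := (ValuationRing.dvd_total 2 w).resolve_left h
  have : ¬IsUnit u := fun c => h (hu ▸ (c.mul_right_dvd.2 dvd_rfl))
  refine ⟨u, this, hu, ?_⟩
  simpa using IsLocalRing.isUnit_one_sub_self_of_mem_nonunits (-u) (by simpa using this)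

theorem om_asc {t : O} {a : ℕ} (h : ∀ i < a, ¬2 ∣ om i t) :
    ∀ i ≤ a, Associated (om i t) (t ^ 2 ^ i) := fun i hi => by
  induction i with
  | zero => simpa [om] using Associated.refl t
  | succ i ih =>
    obtain ⟨u, -, h2, h3⟩ := half (h i hi)
    have : om i t + 2 = om i t * (1 + u) := by rw [mul_add, ← h2, mul_one]
    rw [om_succ, this, pow_succ, pow_mul, sq]
    exact (ih (by omega)).mul_mul ((associated_mul_unit_left _ _ h3).trans (ih (by omega)))

theorem nil {T w : O} (hT : T ≠ 0) (hw : ¬IsUnit w) :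
    IsNilpotent (Ideal.Quotient.mk (Ideal.span {T}) w) := by
  obtain ⟨ϖ, h⟩ := IsDiscreteValuationRing.exists_irreducible O
  obtain ⟨m, hm⟩ := IsDiscreteValuationRing.associated_pow_irreducible hT h
  refine ⟨m, ?_⟩
  rw [← map_pow, Ideal.Quotient.eq_zero_iff_mem, Ideal.mem_span_singleton]
  refine hm.dvd.trans (pow_dvd_pow_of_dvd ?_ m)
  rw [← Ideal.mem_span_singleton, ← h.maximalIdeal_eq]
  exact hw

theorem fin [Finite (IsLocalRing.ResidueField O)] {T : O} (hT : T ≠ 0) :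
    Finite (O ⧸ Ideal.span {T}) := by
  obtain ⟨ϖ, h⟩ := IsDiscreteValuationRing.exists_irreducible O
  obtain ⟨m, hm⟩ := IsDiscreteValuationRing.associated_pow_irreducible hT h
  rw [Ideal.span_singleton_eq_span_singleton.2 hm, ← Ideal.span_singleton_pow, ← h.maximalIdeal_eq]
  have : Finite (O ⧸ IsLocalRing.maximalIdeal O) := ‹_›
  exact Ideal.finite_quotient_pow (IsNoetherian.noetherian _) _

end

theorem nil_aeval {Λ G : Type} [CommRing Λ] [CommRing G] [Algebra Λ G] (x : G) (p : Λ[X])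
    (h : IsNilpotent (aeval x p)) : IsNilpotent (aeval (LinearMap.mulLeft Λ x) p) := by
  have := h.map (Algebra.lmul Λ G)
  rwa [← aeval_algHom_apply] at this

end V2

open V2 in
theorem rowV2 : OfV2 := by
  intro qr lam O ι Λ _ _ _ _ _ _ _ _ st au g pr P a f n R c t s y q lg lab eg lv hs ha rel q1 q2
    q3 q4
  obtain ⟨a, rfl⟩ : ∃ b, a = b + 1 := ⟨a - 1, by omega⟩
  have asc := om_asc lv.2
  have t0 : t ≠ 0 := fun h => lv.2 0 (by omega) (by simp [om, h])
  have two : (2 : O) ≠ 0 := two_ne_zero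
  have om0 : om a t ≠ 0 := (asc a (by omega)).ne_zero_iff.2 (pow_ne_zero _ t0)
  obtain ⟨u, u1, u2, u3⟩ := half (lv.2 a (by omega))
  have e1 : 2 ^ n + 2 ^ n ≤ 2 ^ a :=
    le_trans (by omega) (Nat.pow_le_pow_right two_pos (show n + 1 ≤ a by omega))
  obtain ⟨T, hT⟩ : ∃ T, T = t ^ 2 ^ n := ⟨_, rfl⟩
  have T0 : T ≠ 0 := hT ▸ pow_ne_zero _ t0
  have TT : T * T ∣ om a t := by
    rw [hT, ← pow_add]
    exact (pow_dvd_pow t e1).trans (asc a (by omega)).dvd'
  have T2 : T ∣ 2 := u2 ▸ ((dvd_mul_right T T).trans TT).mul_right u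
  have us : u * s = om a t * (1 + u) := mul_left_cancel₀ om0 (by
    rw [← mul_assoc, ← u2, ← hs, om_succ, mul_add (om a t) 1, ← u2, mul_one])
  have lo : ∀ l ∈ SP pr P, lev l < a → T ∣ y l := fun l hl h => by
    have h1 : t ^ 2 ^ a ∣ t ^ 2 ^ lev l * y l :=
      (asc a (by omega)).dvd'.trans ((Dvd.intro _ u2.symm).trans ((rel.s0 l hl).trans
        (mul_dvd_mul_right (asc _ (by omega)).dvd _)))
    have h2 : 2 ^ lev l + 2 ^ n ≤ 2 ^ a := by
      obtain ⟨a, rfl⟩ : ∃ b, a = b + 1 := ⟨a - 1, by omega⟩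
      have := Nat.pow_le_pow_right two_pos (show lev l ≤ a by omega)
      have := Nat.pow_le_pow_right two_pos (show n ≤ a by omega)
      omega
    rw [hT, ← mul_dvd_mul_iff_left (pow_ne_zero (2 ^ lev l) t0), ← pow_add]
    exact (pow_dvd_pow t h2).trans h1
  have mid : ∀ l ∈ SP pr P, lev l = a → u ∣ y l := fun l hl h => by
    have := rel.s0 l hl
    rwa [h, u2, mul_dvd_mul_iff_left om0] at this
  have lP : lev P = 0 := (qr.lab ι pr P lab).2.2.2.2.1
  have mem : ∀ i, pr i ∈ SP pr P := fun i => mem_insert_of_mem (mem_image_of_mem _ (mem_univ i))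
  let mk := Ideal.Quotient.mk (Ideal.span {T})
  have mk0 : ∀ x, mk x = 0 ↔ T ∣ x := fun x =>
    Ideal.Quotient.eq_zero_iff_mem.trans Ideal.mem_span_singleton
  have mk2 : ∀ x ∈ Ideal.span {2, t ^ 2 ^ n}, mk x = 0 := fun x hx => by
    obtain ⟨v, w, rfl⟩ := Ideal.mem_span_pair.1 hx
    exact (mk0 _).2 (dvd_add (T2.mul_left _) (hT ▸ dvd_mul_left _ _))
  obtain ⟨φ, hφ⟩ := lg.lift _ (mk (1 + t)) ((mk0 2).2 T2) (by
    rw [← map_pow, ← sub_eq_zero, ← mk.map_one, ← map_sub, mk0, hT]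
    exact (asc n (by omega)).dvd')
  letI := φ.toAlgebra
  have sm : ∀ (h : Λ) (x : O ⧸ Ideal.span {T}), h • x = φ h * x := fun _ _ => rfl
  have sum : ∀ a', n ≤ a' → (∀ l ∈ SP pr P, lev l < a' → T ∣ y l) → 0 < a' →
      ∀ (C : ℕ → O) (r : ℕ → Co n), (∀ l ∈ SP pr P, n ≤ lev l → C l = cv (1 + t) (r l)) →
      ∑ i : {i // a' ≤ lev (pr i)}, cv g (r (pr i.1)) • mk (y (pr i.1)) =
        mk (∑ l ∈ SP pr P, C l * y l) := fun a' h1 h2 h3 C r hC => by
    have k : ∀ l ∈ SP pr P, lev l < a' → mk (C l * y l) = 0 := fun l hl h =>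
      (mk0 _).2 ((h2 l hl h).mul_left _)
    rw [map_sum, SP, sum_insert (by simpa using lab.ne), k P (mem_insert_self _ _) (by omega),
      zero_add, sum_image fun _ _ _ _ h => lab.inj h]
    refine Fintype.sum_of_injective Subtype.val Subtype.val_injective _ _
      (fun i hi => k _ (mem i) (not_le.1 fun h => hi ⟨⟨i, h⟩, rfl⟩)) fun i => ?_
    rw [sm, lam.map, hφ, ← lam.map, hC _ (mem _) (h1.trans i.2), map_mul]
  have row : ∀ a', n ≤ a' → (∀ l ∈ SP pr P, lev l < a' → T ∣ y l) → 0 < a' →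
      (∑ i : {i // a' ≤ lev (pr i)}, cv g (c (pr i.1)) • mk (y (pr i.1)) = 0) ∧
      ∀ l : {i // a' ≤ lev (pr i)}, ∃ z, om (lev (pr l.1)) t * y (pr l.1) = 2 * z ∧
        (a + 1 < lev (pr l.1) → mk z = 0) ∧ (lev (pr l.1) = a + 1 → z = s * y (pr l.1)) ∧
        ∑ i : {i // a' ≤ lev (pr i)}, cv g (R (pr l.1) (pr i.1)) • mk (y (pr i.1)) = mk z :=
    fun a' h1 h2 h3 => by
    obtain ⟨C, c1, c2⟩ := rel.s2
    refine ⟨(sum a' h1 h2 h3 C c c1).trans (mk2 _ c2), fun l => ?_⟩
    obtain ⟨C, c1, z, c2, c3⟩ := rel.s1 _ (mem l.1) (h1.trans l.2)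
    refine ⟨z, c2, fun h => (mk0 z).2 (T2.trans ?_), fun h => mul_left_cancel₀ two ?_, ?_⟩
    · rw [← mul_dvd_mul_iff_left two, ← c2]
      exact (four_dvd lv.1 h).mul_right _
    · rw [← c2, h, hs, mul_assoc]
    · rw [sum a' h1 h2 h3 C _ c1, eq_comm, ← sub_eq_zero, ← map_sub]
      exact mk2 _ c3
  obtain ⟨i₀, i1, i2⟩ : ∃ i, a + 1 ≤ lev (pr i) ∧ (g - 1) ^ (2 ^ n - 1) • mk (y (pr i)) ≠ 0 := by
    obtain ⟨l, hl, hy⟩ := rel.unit
    have nT : ∀ x, IsUnit x → ¬T ∣ t ^ (2 ^ n - 1) * x := fun x hx h => by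
      rw [hT, ← Nat.sub_add_cancel (Nat.one_le_two_pow (n := n)), pow_succ, Nat.add_sub_cancel,
        mul_dvd_mul_iff_left (pow_ne_zero _ t0)] at h
      exact eg.2.1 (isUnit_of_dvd_unit h hx)
    have h1 : a + 1 ≤ lev l := by
      by_contra h
      rcases (Nat.lt_succ_iff.1 (not_le.1 h)).eq_or_lt with h | h
      · exact u1 (isUnit_of_dvd_unit (mid l hl h) hy)
      · exact nT _ hy ((lo l hl h).mul_left _)
    rcases mem_insert.1 hl with rfl | hl
    · omega
    obtain ⟨i, -, rfl⟩ := mem_image.1 hl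
    refine ⟨i, h1, fun h => nT _ hy ((mk0 _).1 ?_)⟩
    rw [← h, sm, map_pow, map_sub, hφ, map_mul, map_pow, map_add]
    simp
  rcases ValuationRing.dvd_total T u with h | h
  · obtain ⟨r1, r2⟩ := row (a + 1) (by omega) (fun l hl h' =>
      (Nat.lt_succ_iff.1 h').eq_or_lt.elim (fun e => h.trans (mid l hl e)) (lo l hl)) (by omega)
    refine Or.inl ⟨_, _, inferInstance, fin T0, LinearMap.mulLeft Λ (mk s), q.map (Int.castRingHom Λ),
      q1.map _, natDegree_map_le.trans q4, ?_, nil_aeval _ _ ?_, fun i => mk (y (pr i.1)),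
      ⟨fun l => ?_, r1.symm ▸ by simp [xv]⟩, ⟨i₀, i1⟩, i2⟩
    · rwa [Polynomial.map_map, RingHom.ext_int (au.comp _) (Int.castRingHom F2)]
    · rw [← algebraMap_int_eq, aeval_map_algebraMap]
      exact aeval_algHom_apply mk.toIntAlgHom s q ▸ nil T0 q3
    · obtain ⟨z, -, z1, z2, z3⟩ := r2 l
      simp only [ap, xv, rv, Bool.false_eq_true, and_false, if_false, Matrix.submatrix_apply, z3,
        zero_smul, add_zero, mem_filter, mem_univ, true_and, LinearMap.mulLeft_apply]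
      split_ifs with e
      · rw [z2 e, map_mul]
      · exact z1 (lt_of_le_of_ne l.2 (Ne.symm e))
  · obtain ⟨r1, r2⟩ := row a (by omega) lo (by omega)
    have Ts : T ∣ s := by
      have u0 : u ≠ 0 := fun e => two (by rw [u2, e, mul_zero])
      rw [← mul_dvd_mul_iff_left u0, us]
      exact ((mul_dvd_mul_right h T).trans TT).mul_right _
    choose z z0 z1 z2 z3 using r2
    have x1 : ∀ l, xv (univ.filter fun l : {i // a ≤ lev (pr i)} => lev (pr l.1) = a) true
        (LinearMap.mulLeft Λ (mk u))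
        (fun l => if lev (pr l.1) = a then mk (z l) else mk (y (pr l.1))) l = mk (y (pr l.1)) :=
      fun l => by
      simp only [xv, mem_filter, mem_univ, true_and, and_true, LinearMap.mulLeft_apply]
      split_ifs with e
      · have := z0 l
        rw [e, u2, mul_assoc] at this
        rw [mul_left_cancel₀ om0 this, map_mul]
      · rfl
    refine Or.inr ⟨_, _, inferInstance, fin T0, LinearMap.mulLeft Λ (mk u), X, monic_X,
      natDegree_X_le.trans (le_trans ?_ q4), by rw [map_X]; exact irreducible_X,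
      nil_aeval _ _ (by rw [aeval_X]; exact nil T0 u1),
      fun l : {i // a ≤ lev (pr i)} => if lev (pr l.1) = a then mk (z l) else mk (y (pr l.1)),
      ⟨fun l => ?_, (sum_congr rfl fun l _ => congrArg _ (x1 l)).trans r1⟩,
      ⟨i₀, Nat.le_of_succ_le i1⟩, ?_⟩
    · rw [← q1.natDegree_map (Int.castRingHom F2)]
      exact q2.natDegree_pos
    · refine ((sum_congr rfl fun l _ => congrArg _ (x1 l)).trans (z3 l)).trans ?_
      simp only [rv, if_true, zero_smul, add_zero, mem_filter, mem_univ, true_and,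
        Nat.add_sub_cancel]
      split_ifs with e
      · rfl
      · rcases (Nat.succ_le_of_lt (lt_of_le_of_ne l.2 (Ne.symm e))).eq_or_lt with e' | e'
        · rw [z2 l e'.symm, mk0]
          exact Ts.mul_right _
        · exact z1 l e'
    · simpa only [if_neg (show lev (pr i₀) ≠ a by omega)] using i2

end Pool.Agent.MP_1246c0_nt.H12
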