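import Pool.Agent.MP_1246c0_nt.H12.SpecN

/-! The mass of the primes that detect a set of small primes. -/

namespace Pool.Agent.MP_1246c0_nt.H12

open Finset

namespace DET

/-- the product of the quadratic symbols -/
def JJ (W : Finset ℕ) (n : ℕ) : ℤ := ∏ l ∈ W, jacobiSym n l

theorem JJ_one (W : Finset ℕ) : JJ W 1 = 1 := by simp [JJ]

theorem JJ_mul (W : Finset ℕ) (a b : ℕ) : JJ W (a * b) = JJ W a * JJ W b := by
  simp [JJ, jacobiSym.mul_left, prod_mul_distrib]

theorem JJ_abs (W : Finset ℕ) (a : ℕ) : |(JJ W a : ℝ)| ≤ 1 := by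
  rw [JJ, Int.cast_prod, abs_prod]
  exact prod_le_one (fun _ _ => abs_nonneg _) fun l _ => by
    rcases jacobiSym.trichotomy a l with h | h | h <;> simp [h]

theorem JJ_mod {W : Finset ℕ} {a b m : ℕ} (h : a ≡ b [MOD m]) (hm : ∀ l ∈ W, l ∣ m) :
    JJ W a = JJ W b :=
  prod_congr rfl fun l hl => jacobiSym.mod_left' (by exact_mod_cast h.of_dvd (hm l hl))

theorem jac_eq (a l : ℕ) [Fact l.Prime] : jacobiSym a l = quadraticChar (ZMod l) a := by
  rw [← jacobiSym.legendreSym.to_jacobiSym, legendreSym, Int.cast_natCast]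

theorem sg_add (x y : F2) : sg (x + y) = sg x * sg y := by
  have h : ∀ z : F2, z = 0 ∨ z = 1 := by decide
  rcases h x with rfl | rfl <;> rcases h y with rfl | rfl <;>
    simp [sg, show (1 + 1 : F2) = 0 from rfl]

theorem JJ_sg (qr : SQR) {W : Finset ℕ} (hW : ∀ l ∈ W, Gd 0 l) {p : ℕ} (hp : p.Prime)
    (h : p ∉ W) : (JJ W p : ℝ) = sg (∑ l ∈ W, lg p l) := by
  induction W using Finset.induction_on with
  | empty => simp [JJ, sg]
  | insert l W hl ih =>
    have : Fact l.Prime := ⟨(hW l (mem_insert_self _ _)).1⟩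
    rw [sum_insert hl, sg_add, ← ih (fun l hl => hW l (mem_insert_of_mem hl))
      fun c => h (mem_insert_of_mem c), JJ, prod_insert hl, Int.cast_mul, jac_eq, lg, qr.sg]
    · rfl
    · rw [Ne, ZMod.natCast_eq_zero_iff, Nat.prime_dvd_prime_iff_eq this.out hp]
      exact fun c => h (c ▸ mem_insert_self _ _)

theorem sum_zero {q n : ℕ} (f : ℕ → ℂ) (hm : ∀ a b, f (a * b) = f a * f b)
    (hp : ∀ a b, a ≡ b [MOD q] → f a = f b) (hn : n.Coprime q) (h : f n = -1) :
    ∑ a ∈ range q, f a = 0 := by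
  have inj : Set.InjOn (fun a => a * n % q) (range q) := fun a ha b hb e =>
    (Nat.ModEq.cancel_right_of_coprime hn.symm e).eq_of_lt_of_lt (by simpa using ha)
      (by simpa using hb)
  have im : (range q).image (fun a => a * n % q) = range q :=
    eq_of_subset_of_card_le (image_subset_iff.2 fun a ha => mem_range.2
      (Nat.mod_lt _ (Nat.zero_lt_of_lt (mem_range.1 ha)))) (card_image_of_injOn inj).ge
  have : ∑ a ∈ range q, f a = -∑ a ∈ range q, f a := by
    conv_lhs => rw [← im, sum_image inj]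
    rw [← sum_neg_distrib]
    exact sum_congr rfl fun a _ => by rw [hp _ _ (Nat.mod_modEq _ _), hm, h, mul_neg_one]
  linear_combination this / 2

theorem exists_flip (k : ℕ) {W : Finset ℕ} (hW : ∀ l ∈ W, Gd 0 l) (hne : W.Nonempty) :
    ∃ n : ℕ, n.Coprime (2 ^ k * ∏ l ∈ W, l) ∧ n ≡ 1 [MOD 2 ^ k] ∧ JJ W n = -1 := by
  obtain ⟨l, hl⟩ := hne
  obtain ⟨l1, l2, -⟩ := hW l hl
  have : Fact l.Prime := ⟨l1⟩
  obtain ⟨x, hx⟩ := quadraticChar_exists_neg_one (F := ZMod l) (by rwa [ZMod.ringChar_zmod_n])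
  have co : l.Coprime (2 ^ k * ∏ l' ∈ W.erase l, l') := Nat.Coprime.mul_right
    (((Nat.coprime_primes l1 Nat.prime_two).2 l2).pow_right k) (Nat.Coprime.prod_right
      fun l' h => (Nat.coprime_primes l1 (hW l' (mem_of_mem_erase h)).1).2 (ne_of_mem_erase h).symm)
  obtain ⟨n, n1, n2⟩ := Nat.chineseRemainder co x.val 1
  have n3 : jacobiSym n l = -1 := by
    rw [jac_eq, (ZMod.natCast_eq_natCast_iff _ _ _).2 n1, ZMod.natCast_zmod_val, hx]
  refine ⟨n, ?_, n2.of_mul_right _, ?_⟩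
  · rw [← mul_prod_erase _ _ hl, mul_left_comm]
    refine Nat.Coprime.mul_right ?_ (by rw [Nat.Coprime, n2.gcd_eq, Nat.gcd_one_left])
    by_contra c
    rw [jacobiSym.eq_zero_iff_not_coprime.2 (by simpa using c)] at n3
    exact absurd n3 (by decide)
  · rw [JJ, ← mul_prod_erase _ _ hl, n3, ← JJ,
      JJ_mod n2 fun l' h => (dvd_prod_of_mem _ h).mul_left _, JJ_one, mul_one]

open Classical in
theorem hs (Q : ℕ → Prop) {f g : ℕ → ℝ} (hg : Summable g) (h : ∀ p, |f p| ≤ g p) :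
    HasSum (fun p : ℕ => if p.Prime ∧ Q p then f p else 0) (SP' Q f) :=
  (Summable.of_norm_bounded hg fun p => by
    split_ifs
    · exact h p
    · simpa using (abs_nonneg _).trans (h p)).hasSum

theorem pw_nn (σ : ℝ) (p : ℕ) : 0 ≤ pw σ p := Real.rpow_nonneg p.cast_nonneg _

theorem pw_sub {σ σ' : ℝ} (h0 : 0 < σ) (h : σ ≤ σ') {p : ℕ} (hp : p.Prime) :
    0 ≤ pw σ p - pw σ' p ∧ pw σ p - pw σ' p ≤ σ' := by
  have p1 : (1 : ℝ) ≤ p := by exact_mod_cast hp.one_le
  have p0 : (0 : ℝ) < p := by linarith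
  refine ⟨sub_nonneg.2 (Real.rpow_le_rpow_of_exponent_le p1 (by linarith)), ?_⟩
  have e : pw σ' p = pw σ p * Real.exp (-((σ' - σ) * Real.log p)) := by
    rw [pw, pw, Real.rpow_def_of_pos p0, Real.rpow_def_of_pos p0, ← Real.exp_add]
    congr 1; ring
  have h1 := Real.add_one_le_exp (-((σ' - σ) * Real.log p))
  have h2 : pw σ p * p ≤ 1 := by
    rw [pw, ← Real.rpow_add_one p0.ne']
    exact Real.rpow_le_one_of_one_le_of_nonpos p1 (by linarith)
  have h3 := Real.log_le_self p0.le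
  have h4 := Real.log_nonneg p1
  have h5 := pw_nn σ p
  have h6 : pw σ p * Real.log p ≤ 1 := (mul_le_mul_of_nonneg_left h3 h5).trans h2
  have h7 := mul_le_mul_of_nonneg_left h1 h5
  rw [e]
  nlinarith [mul_le_mul_of_nonneg_left h6 (sub_nonneg.2 h)]

open Classical in
theorem twist {C : ℝ} {k : ℕ} {W : Finset ℕ} {σ : ℝ} (hs' : Summable (pw σ))
    (h : ∀ ψ : DirichletCharacter ℂ (2 ^ k),
      (∑' p : ℕ, if p.Prime then (ψ p * JJ W p) * (pw σ p : ℂ) else 0).re ≤ C) (hk : 1 ≤ k) :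
    SP' (fun p => p % 2 ^ k = 1) (fun p => JJ W p * pw σ p) ≤ C := by
  have sm : ∀ ψ : DirichletCharacter ℂ (2 ^ k),
      Summable fun p : ℕ => if p.Prime then (ψ p * JJ W p) * (pw σ p : ℂ) else 0 := fun ψ =>
    Summable.of_norm_bounded hs' fun p => by
      split_ifs
      · rw [norm_mul, norm_mul, Complex.norm_real, Real.norm_of_nonneg (pw_nn σ p),
          Complex.norm_intCast]
        exact mul_le_of_le_one_left (pw_nn σ p)
          (mul_le_one₀ (ψ.norm_le_one _) (abs_nonneg _) (JJ_abs W p))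
      · simpa using pw_nn σ p
  have e : ∑ ψ : DirichletCharacter ℂ (2 ^ k),
      (∑' p : ℕ, if p.Prime then (ψ p * JJ W p) * (pw σ p : ℂ) else 0) =
      (((2 ^ k).totient * SP' (fun p => p % 2 ^ k = 1) (fun p => JJ W p * pw σ p) : ℝ) : ℂ) := by
    rw [← Summable.tsum_finsetSum fun ψ _ => sm ψ, SP', ← tsum_mul_left, Complex.ofReal_tsum]
    refine tsum_congr fun p => ?_
    have : (p : ZMod (2 ^ k)) = 1 ↔ p % 2 ^ k = 1 := by
      rw [← Nat.cast_one, ZMod.natCast_eq_natCast_iff',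
        Nat.mod_eq_of_lt (Nat.one_lt_two_pow (by omega))]
    by_cases hp : p.Prime
    · simp only [hp, if_true, true_and, ← sum_mul, DirichletCharacter.sum_characters_eq, this]
      split_ifs <;> simp [mul_assoc]
    · simp [hp]
  have e' := congrArg Complex.re e
  rw [Complex.ofReal_re, Complex.re_sum] at e'
  have := sum_le_card_nsmul univ _ C fun ψ _ => h ψ
  rw [e', card_univ, ← Nat.card_eq_fintype_card,
    DirichletCharacter.card_eq_totient_of_hasEnoughRootsOfUnity, nsmul_eq_mul] at this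
  exact le_of_mul_le_mul_left this (by exact_mod_cast Nat.totient_pos.2 (by positivity))

end DET

open DET Classical in
theorem rowDET : OfDET := by
  rintro qr ⟨C₁, c0, ms⟩ ⟨C₂, chi⟩
  refine ⟨C₁ + |C₂| + 1, by positivity, fun k W σ σ' hk hne hW s0 s1 s2 => ?_⟩
  obtain ⟨-, m1, -, -, m2, -⟩ := ms σ s0 (s1.trans s2)
  obtain ⟨-, m3, -, m4, -, -⟩ := ms σ' (s0.trans_le s1) s2
  have m2 := (abs_le.1 (m2 k 1 σ' hk odd_one (Nat.one_lt_two_pow (by omega)) s1 s2)).1
  have m4 := (abs_le.1 m4).2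
  obtain ⟨n, n1, n2, n3⟩ := exists_flip k hW hne
  have W0 : ∀ l ∈ W, (l : ℝ) ≠ 0 := fun l hl => by exact_mod_cast (hW l hl).1.ne_zero
  have L0 : 0 ≤ ∑ l ∈ W, Real.log l := sum_nonneg fun l _ => Real.log_natCast_nonneg l
  have tw := twist (k := k) (W := W) (C := Real.log (5 + k + ∑ l ∈ W, Real.log l) + |C₂|) m1
    (fun ψ => ?_) hk
  swap
  · have per : ∀ a b : ℕ, a ≡ b [MOD 2 ^ k * ∏ l ∈ W, l] →
        (ψ a * JJ W a : ℂ) = ψ b * JJ W b := fun a b h => by
      rw [(ZMod.natCast_eq_natCast_iff _ _ _).2 (h.of_mul_right _),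
        JJ_mod h fun l hl => (dvd_prod_of_mem _ hl).mul_left _]
    have mul : ∀ a b : ℕ, (ψ (a * b : ℕ) * JJ W (a * b) : ℂ) = ψ a * JJ W a * (ψ b * JJ W b) :=
      fun a b => by rw [Nat.cast_mul, map_mul, JJ_mul, Int.cast_mul]; ring
    refine (chi (2 ^ k * ∏ l ∈ W, l) (fun a => ψ a * JJ W a) σ
      (Nat.mul_pos (by positivity) (prod_pos fun l hl => (hW l hl).1.pos)) (by simp [JJ_one]) mul
      (fun a => ?_) (fun a => per _ _ (by simp [Nat.ModEq]))
      (sum_zero _ mul per n1 (by simp [n3, (ZMod.natCast_eq_natCast_iff _ _ _).2 n2])) s0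
      (s1.trans s2)).trans (add_le_add (Real.log_le_log (by positivity) ?_) (le_abs_self _))
    · rw [norm_mul, Complex.norm_intCast]
      exact mul_le_one₀ (ψ.norm_le_one _) (abs_nonneg _) (JJ_abs W a)
    · push_cast
      rw [Real.log_mul (by positivity) (prod_ne_zero_iff.2 W0), Real.log_pow, Real.log_prod W0]
      have := Real.log_le_sub_one_of_pos two_pos
      nlinarith [k.cast_nonneg (α := ℝ)]
  have d1 : ∀ p, |pw σ p - pw σ' p| ≤ pw σ p + pw σ' p := fun p =>
    abs_le.2 ⟨by linarith [pw_nn σ p, pw_nn σ' p], by linarith [pw_nn σ p, pw_nn σ' p]⟩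
  have key := hasSum_le (fun p => ?_) (hs (fun p => p % 2 ^ k = 1) (m1.add m3) d1)
    ((((hs (fun p => p % 2 ^ k = 1 ∧ p ∉ W ∧ ∑ l ∈ W, lg p l = 1) (m1.add m3) d1).mul_left 2).add
      (hs (fun p => p % 2 ^ k = 1) (f := fun p => JJ W p * pw σ p) m1 fun p => by
        rw [abs_mul, abs_of_nonneg (pw_nn σ p)]
        exact mul_le_of_le_one_left (pw_nn σ p) (JJ_abs W p))).add
      ((hs (fun _ => True) m3 fun p => (abs_of_nonneg (pw_nn σ' p)).le).add
        ((hs (· ∈ W) (m1.add m3) d1).mul_left 2)))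
  · have w : SP' (· ∈ W) (fun p => pw σ p - pw σ' p) ≤ σ' * W.card := by
      rw [SP', tsum_eq_sum (s := W) fun p hp => by simp [hp], mul_comm, ← nsmul_eq_mul]
      exact sum_le_card_nsmul _ _ _ fun p hp => by
        rw [if_pos ⟨(hW p hp).1, hp⟩]
        exact (pw_sub s0 s1 (hW p hp).1).2
    have a1 : 0 ≤ ((k : ℝ) + 1) ^ 10 * σ' := by have := s0.trans_le s1; positivity
    have a2 : 0 ≤ Real.log (5 + k + ∑ l ∈ W, Real.log l) :=
      Real.log_nonneg (by linarith [k.cast_nonneg (α := ℝ)])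
    have a3 : 0 ≤ Real.log (1 / σ') := Real.log_nonneg (one_le_one_div (s0.trans_le s1) s2)
    have a4 : 0 ≤ σ' * W.card := by have := s0.trans_le s1; positivity
    have a5 := abs_nonneg C₂
    rw [mul_assoc] at m2
    have : (2 : ℝ) / 2 ^ k * Real.log (σ' / σ) = 2 * (1 / 2 ^ k * Real.log (σ' / σ)) := by ring
    nlinarith [mul_nonneg c0 a1, mul_nonneg c0 a2, mul_nonneg c0 a3, mul_nonneg c0 a4,
      mul_nonneg a5 a1, mul_nonneg a5 a2, mul_nonneg a5 a3, mul_nonneg a5 a4]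
  · by_cases hp : p.Prime
    swap
    · simp [hp]
    have b1 := (pw_sub s0 s1 hp).1
    have b2 := pw_nn σ p
    have b3 := pw_nn σ' p
    by_cases h1 : p % 2 ^ k = 1
    swap
    · simp only [hp, h1, false_and, and_false, if_false, true_and, if_true]
      split_ifs <;> linarith
    by_cases h2 : p ∈ W
    · simp only [hp, h1, h2, not_true, false_and, and_false, if_false, and_true, if_true]
      nlinarith [mul_le_mul_of_nonneg_right (abs_le.1 (JJ_abs W p)).1 b2]
    simp only [hp, h1, h2, JJ_sg qr hW hp h2, not_false_iff, true_and, if_false, if_true, sg]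
    by_cases h3 : ∑ l ∈ W, lg p l = 1
    · simp only [h3, if_true, one_ne_zero, if_false]
      linarith
    · have : ∑ l ∈ W, lg p l = 0 := by
        revert h3
        generalize ∑ l ∈ W, lg p l = x
        revert x
        decide
      simp only [this, zero_ne_one, if_true, if_false]
      linarith

end Pool.Agent.MP_1246c0_nt.H12
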